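import Mathlib

/-!
# Border subrank versus Hilbert-Mumford subrank

We show that the tensor

`T = e₀ ⊗ (e₀₀₁ + e₀₁₀) + e₁ ⊗ (e₀₁₁ + e₁₀₀) + e₂ ⊗ (e₁₀₁ + e₁₁₀ + e₀₀₁)`

in `(ℂ³)^{⊗ 4}` has border subrank at least two, while no one-parameter subgroup degenerates it to
a tensor in the orbit of the unit tensor `I₂` (or `I₃`).
-/

set_option autoImplicit false

namespace Pool.Agent.Results.MP_5e02e7_ag.BorderExceedsHM

open Filter Topology

/-- Tensors in `(ℂ^n)^{⊗ d}`, given by their coordinates. -/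
abbrev Tensor (d n : ℕ) : Type := (Fin d → Fin n) → ℂ

/-- The tensor `(A₁ ⊗ ⋯ ⊗ A_d) T`. -/
noncomputable def act {d n : ℕ} (A : Fin d → Matrix (Fin n) (Fin n) ℂ) (T : Tensor d n) :
    Tensor d n :=
  fun i => ∑ j : Fin d → Fin n, (∏ k, A k (i k) (j k)) * T j

/-- The unit tensor `I_r`. -/
noncomputable def unitTensor (d n r : ℕ) : Tensor d n := by
  classical
  exact fun i => if ∃ a : Fin n, (a : ℕ) < r ∧ ∀ k, i k = a then 1 else 0

/-- The border subrank: the largest `r` such that `I_r` is in the closure of the orbit of `T`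
under the group `GL_n(ℂ)^d`. -/
noncomputable def borderSubrank {d n : ℕ} (T : Tensor d n) : ℕ :=
  sSup {r | r ≤ n ∧ unitTensor d n r ∈
    closure (Set.range fun g : Fin d → GL (Fin n) ℂ => act (fun k => (g k).1) T)}

/-- A one-parameter subgroup of `GL_n(ℂ)^d`: a homomorphism of groups whose coordinates are
Laurent polynomials. -/
def IsOneParameterSubgroup {d n : ℕ} (l : ℂˣ →* (Fin d → GL (Fin n) ℂ)) : Prop :=
  ∀ (k : Fin d) (a b : Fin n), ∃ (N : ℕ) (p : Polynomial ℂ),
    ∀ t : ℂˣ, (l t k).1 a b * (t : ℂ) ^ N = p.eval (t : ℂ)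

/-- The Hilbert-Mumford subrank: the largest `r` for which there is a one-parameter subgroup `l`
such that `l(t) · T` converges to a tensor in the orbit of `I_r` as `t → 0`. -/
noncomputable def hmSubrank {d n : ℕ} (T : Tensor d n) : ℕ :=
  sSup {r | r ≤ n ∧ ∃ (l : ℂˣ →* (Fin d → GL (Fin n) ℂ)) (g : Fin d → GL (Fin n) ℂ),
    IsOneParameterSubgroup l ∧
    Tendsto (fun t : ℂˣ => act (fun k => (l t k).1) T) (comap (fun t : ℂˣ => (t : ℂ)) (𝓝 0))
      (𝓝 (act (fun k => (g k).1) (unitTensor d n r)))}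

/-! ### Generalities -/

/-- Contraction of a tensor with linear forms. -/
noncomputable def con {d n : ℕ} (f : Fin d → Fin n → ℂ) (T : Tensor d n) : ℂ :=
  ∑ j : Fin d → Fin n, (∏ k, f k (j k)) * T j

theorem con_act {d n : ℕ} (f : Fin d → Fin n → ℂ) (A : Fin d → Matrix (Fin n) (Fin n) ℂ)
    (T : Tensor d n) :
    con f (act A T) = con (fun k b => ∑ a, f k a * A k a b) T := by
  unfold con act
  simp only [Finset.mul_sum]
  rw [Finset.sum_comm]
  refine Finset.sum_congr rfl fun j _ => ?_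
  have h := Finset.prod_univ_sum (fun _ : Fin d => (Finset.univ : Finset (Fin n)))
    (fun k a => f k a * A k a (j k))
  rw [h, Fintype.piFinset_univ, Finset.sum_mul]
  refine Finset.sum_congr rfl fun i _ => ?_
  rw [Finset.prod_mul_distrib]
  ring

theorem act_act {d n : ℕ} (A B : Fin d → Matrix (Fin n) (Fin n) ℂ) (T : Tensor d n) :
    act A (act B T) = act (fun k => A k * B k) T := by
  funext i
  have h := con_act (fun k a => A k (i k) a) B T
  exact h

theorem act_one {d n : ℕ} (T : Tensor d n) :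
    act (fun _ => (1 : Matrix (Fin n) (Fin n) ℂ)) T = T := by
  classical
  funext i
  unfold act
  rw [Finset.sum_eq_single i]
  · simp
  · intro j _ hj
    obtain ⟨k, hk⟩ := Function.ne_iff.1 hj
    rw [Finset.prod_eq_zero (Finset.mem_univ k), zero_mul]
    exact Matrix.one_apply_ne (Ne.symm hk)
  · simp

theorem continuous_act {d n : ℕ} (A : Fin d → Matrix (Fin n) (Fin n) ℂ) :
    Continuous (act A : Tensor d n → Tensor d n) := by
  unfold act
  fun_prop

theorem continuous_con {d n : ℕ} (f : Fin d → Fin n → ℂ) :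
    Continuous (con f : Tensor d n → ℂ) := by
  unfold con
  fun_prop

/-- Degeneration of tensors -/
def Deg {d n : ℕ} (T T' : Tensor d n) : Prop :=
  T' ∈ closure (Set.range fun g : Fin d → GL (Fin n) ℂ => act (fun k => (g k).1) T)

theorem Deg.trans {d n : ℕ} {T T' T'' : Tensor d n} (h : Deg T T') (h' : Deg T' T'') :
    Deg T T'' := by
  refine closure_minimal ?_ isClosed_closure h'
  rintro _ ⟨g, rfl⟩
  have h1 := image_closure_subset_closure_image (continuous_act fun k => (g k).1)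
    (Set.mem_image_of_mem _ h)
  refine closure_mono ?_ h1
  rintro _ ⟨_, ⟨g', rfl⟩, rfl⟩
  refine ⟨fun k => g k * g' k, ?_⟩
  simp only [act_act, Units.val_mul]

theorem deg_of_tendsto {d n : ℕ} {T T' : Tensor d n} {α : Type*} {F : Filter α} [F.NeBot]
    (A : α → Fin d → Matrix (Fin n) (Fin n) ℂ) (hA : ∀ t k, IsUnit (A t k))
    (h : Tendsto (fun t => act (A t) T) F (𝓝 T')) : Deg T T' := by
  refine mem_closure_of_tendsto h (Eventually.of_forall fun t => ?_)
  exact ⟨fun k => (hA t k).unit, rfl⟩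

theorem neBot_zero : (comap (fun t : ℂˣ => (t : ℂ)) (𝓝 0)).NeBot := by
  rw [comap_neBot_iff]
  intro s hs
  obtain ⟨ε, hε, hs⟩ := Metric.mem_nhds_iff.1 hs
  have h1 : ((ε / 2 : ℝ) : ℂ) ≠ 0 := by
    exact_mod_cast (half_pos hε).ne'
  refine ⟨Units.mk0 _ h1, hs ?_⟩
  rw [Units.val_mk0, Metric.mem_ball, dist_zero_right, Complex.norm_real, Real.norm_eq_abs,
    abs_of_pos (half_pos hε)]
  exact half_lt_self hε

theorem act_diagonal {d n : ℕ} (D : Fin d → Fin n → ℂ) (T : Tensor d n) (i : Fin d → Fin n) :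
    act (fun k => Matrix.diagonal (D k)) T i = (∏ k, D k (i k)) * T i := by
  classical
  unfold act
  rw [Finset.sum_eq_single i]
  · simp
  · intro j _ hj
    obtain ⟨k, hk⟩ := Function.ne_iff.1 hj
    rw [Finset.prod_eq_zero (Finset.mem_univ k), zero_mul]
    exact Matrix.diagonal_apply_ne _ (Ne.symm hk)
  · simp


/-! ### One-parameter subgroups -/

theorem coeff_zero (K : ℕ) (c : ℕ → ℂ)
    (h : ∀ t : ℂˣ, ∑ m ∈ Finset.range K, c m * (t : ℂ) ^ m = 0) : ∀ m < K, c m = 0 := by
  intro m hm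
  set p : Polynomial ℂ := ∑ m ∈ Finset.range K, Polynomial.C (c m) * Polynomial.X ^ m with hp
  have h1 : p * Polynomial.X = 0 := by
    apply Polynomial.funext
    intro t
    rw [Polynomial.eval_mul, Polynomial.eval_X, Polynomial.eval_zero]
    by_cases ht : t = 0
    · rw [ht, mul_zero]
    · have h2 := h (Units.mk0 t ht)
      rw [Units.val_mk0] at h2
      rw [hp, Polynomial.eval_finsetSum]
      simp only [Polynomial.eval_mul, Polynomial.eval_C, Polynomial.eval_pow, Polynomial.eval_X]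
      rw [h2, zero_mul]
  have h2 : p = 0 := (mul_eq_zero.1 h1).resolve_right Polynomial.X_ne_zero
  have h3 : p.coeff m = c m := by
    rw [hp, Polynomial.finsetSum_coeff]
    simp only [Polynomial.coeff_C_mul_X_pow]
    rw [Finset.sum_eq_single m]
    · simp
    · intro b _ hb
      rw [if_neg (Ne.symm hb)]
    · intro hm'
      exact absurd (Finset.mem_range.2 hm) hm'
  rw [← h3, h2, Polynomial.coeff_zero]

theorem exists_expansion {n : ℕ} (M : ℂˣ → Matrix (Fin n) (Fin n) ℂ)
    (hM : ∀ a b, ∃ (N : ℕ) (p : Polynomial ℂ), ∀ t : ℂˣ, M t a b * (t : ℂ) ^ N = p.eval (t : ℂ)) :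
    ∃ (N K : ℕ) (C : ℕ → Matrix (Fin n) (Fin n) ℂ), ∀ (t : ℂˣ) (a b : Fin n),
      M t a b * (t : ℂ) ^ N = ∑ m ∈ Finset.range K, C m a b * (t : ℂ) ^ m := by
  choose N p hp using hM
  let N0 : ℕ := ∑ a, ∑ b, N a b
  have hN : ∀ a b, N a b ≤ N0 := fun a b =>
    (Finset.single_le_sum (fun _ _ => Nat.zero_le _) (Finset.mem_univ b)).trans
      (Finset.single_le_sum (f := fun a => ∑ b, N a b) (fun _ _ => Nat.zero_le _)
        (Finset.mem_univ a))
  let p' : Fin n → Fin n → Polynomial ℂ := fun a b => p a b * Polynomial.X ^ (N0 - N a b)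
  let K : ℕ := ∑ a, ∑ b, (p' a b).natDegree + 1
  have hK : ∀ a b, (p' a b).natDegree < K := fun a b =>
    Nat.lt_succ_of_le ((Finset.single_le_sum (f := fun b => (p' a b).natDegree)
      (fun _ _ => Nat.zero_le _) (Finset.mem_univ b)).trans
      (Finset.single_le_sum (f := fun a => ∑ b, (p' a b).natDegree) (fun _ _ => Nat.zero_le _)
        (Finset.mem_univ a)))
  refine ⟨N0, K, fun m => fun a b => (p' a b).coeff m, fun t a b => ?_⟩
  have h1 : M t a b * (t : ℂ) ^ N0 = (p' a b).eval (t : ℂ) := by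
    rw [Polynomial.eval_mul, Polynomial.eval_pow, Polynomial.eval_X, ← hp, mul_assoc, ← pow_add,
      Nat.add_sub_cancel' (hN a b)]
  rw [h1, Polynomial.eval_eq_sum_range' (hK a b)]

theorem exists_eigenform {n : ℕ} (M : ℂˣ → Matrix (Fin n) (Fin n) ℂ)
    (hM : ∀ a b, ∃ (N : ℕ) (p : Polynomial ℂ), ∀ t : ℂˣ, M t a b * (t : ℂ) ^ N = p.eval (t : ℂ))
    (h1 : M 1 = 1) (hmul : ∀ s t, M (s * t) = M s * M t) (J : Set (Fin n))
    (hJ : ∀ j ∈ J, ∀ t, ∀ b, b ≠ j → M t b j = 0) (j : Fin n) (hj : j ∈ J) :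
    ∃ (w : ℤ) (f : Fin n → ℂ), (∀ (t : ℂˣ) (b : Fin n), ∑ a, f a * M t a b = (t : ℂ) ^ w * f b) ∧
      f j = 1 ∧ ∀ j' ∈ J, j' ≠ j → f j' = 0 := by
  obtain ⟨N, K, C, hC⟩ := exists_expansion M hM
  -- the coefficients are orthogonal idempotents
  have hidem : ∀ m < K, ∀ l < K, ∀ a b, (C m * C l) a b = if m = l then C m a b else 0 := by
    intro m hm l hl a b
    have key : ∀ s t : ℂˣ, ∑ m ∈ Finset.range K, (∑ l ∈ Finset.range K,
        (C m * C l) a b * (t : ℂ) ^ l - C m a b * (t : ℂ) ^ m) * (s : ℂ) ^ m = 0 := by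
      intro s t
      have e1 := hC (s * t) a b
      rw [hmul, Matrix.mul_apply, Units.val_mul, mul_pow] at e1
      have e2 : (∑ c, M s a c * M t c b) * ((s : ℂ) ^ N * (t : ℂ) ^ N) =
          ∑ c, (M s a c * (s : ℂ) ^ N) * (M t c b * (t : ℂ) ^ N) := by
        rw [Finset.sum_mul]
        exact Finset.sum_congr rfl fun c _ => by ring
      rw [e2] at e1
      simp only [hC] at e1
      have e3 : ∑ c, (∑ m ∈ Finset.range K, C m a c * (s : ℂ) ^ m) *
          (∑ l ∈ Finset.range K, C l c b * (t : ℂ) ^ l) =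
          ∑ m ∈ Finset.range K, (∑ l ∈ Finset.range K, (C m * C l) a b * (t : ℂ) ^ l) *
            (s : ℂ) ^ m := by
        simp only [Finset.sum_mul_sum]
        simp only [Matrix.mul_apply, Finset.sum_mul]
        rw [Finset.sum_comm]
        refine Finset.sum_congr rfl fun m _ => ?_
        rw [Finset.sum_comm]
        refine Finset.sum_congr rfl fun l _ => ?_
        refine Finset.sum_congr rfl fun c _ => ?_
        ring
      rw [e3] at e1
      simp only [sub_mul, Finset.sum_sub_distrib]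
      rw [e1, sub_eq_zero]
      refine Finset.sum_congr rfl fun m _ => ?_
      rw [mul_pow]
      ring
    have k1 : ∀ t : ℂˣ, ∑ l ∈ Finset.range K,
        ((C m * C l) a b - if m = l then C m a b else 0) * (t : ℂ) ^ l = 0 := by
      intro t
      have := coeff_zero K _ (fun s => key s t) m hm
      simp only [sub_mul, Finset.sum_sub_distrib, ite_mul, zero_mul]
      rw [Finset.sum_ite_eq, if_pos (Finset.mem_range.2 hm)]
      exact this
    have k2 := coeff_zero K _ k1 l hl
    exact sub_eq_zero.1 k2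
  have hsum : ∀ a b, ∑ m ∈ Finset.range K, C m a b = (1 : Matrix (Fin n) (Fin n) ℂ) a b := by
    intro a b
    have := hC 1 a b
    simpa [h1] using this.symm
  have hcol : ∀ j ∈ J, ∀ m < K, ∀ b, b ≠ j → C m b j = 0 := by
    intro j hj m hm b hb
    refine coeff_zero K (fun m => C m b j) (fun t => ?_) m hm
    rw [← hC, hJ j hj t b hb, zero_mul]
  obtain ⟨w, hw, hw0⟩ : ∃ w < K, C w j j ≠ 0 := by
    by_contra hcon
    push Not at hcon
    have := hsum j j
    rw [Finset.sum_eq_zero fun m hm => hcon m (Finset.mem_range.1 hm), Matrix.one_apply_eq] at this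
    exact zero_ne_one this
  have hw1 : C w j j = 1 := by
    have e1 := hidem w hw w hw j j
    rw [if_pos rfl, Matrix.mul_apply, Finset.sum_eq_single j] at e1
    · exact mul_left_cancel₀ hw0 (by rw [e1, mul_one])
    · intro c _ hc
      rw [hcol j hj w hw c hc, mul_zero]
    · simp
  refine ⟨(w : ℤ) - N, C w j, fun t b => ?_, hw1, fun j' hj' hne => ?_⟩
  · have ht : (t : ℂ) ≠ 0 := t.ne_zero
    have htN : (t : ℂ) ^ N ≠ 0 := pow_ne_zero _ ht
    apply mul_right_cancel₀ htN
    rw [zpow_sub₀ ht, zpow_natCast, zpow_natCast]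
    have e1 : (∑ a, C w j a * M t a b) * (t : ℂ) ^ N =
        ∑ a, C w j a * (M t a b * (t : ℂ) ^ N) := by
      rw [Finset.sum_mul]
      exact Finset.sum_congr rfl fun a _ => by ring
    rw [e1]
    simp only [hC, Finset.mul_sum]
    rw [Finset.sum_comm]
    have e2 : ∀ m ∈ Finset.range K, ∑ a, C w j a * (C m a b * (t : ℂ) ^ m) =
        if w = m then C w j b * (t : ℂ) ^ m else 0 := by
      intro m hm
      have e3 := hidem w hw m (Finset.mem_range.1 hm) j b
      rw [Matrix.mul_apply] at e3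
      have e4 : ∑ a, C w j a * (C m a b * (t : ℂ) ^ m) = (∑ a, C w j a * C m a b) * (t : ℂ) ^ m := by
        rw [Finset.sum_mul]
        exact Finset.sum_congr rfl fun a _ => by ring
      rw [e4, e3]
      split_ifs <;> simp
    rw [Finset.sum_congr rfl e2, Finset.sum_ite_eq, if_pos (Finset.mem_range.2 hw)]
    field_simp
  · exact hcol j' hj' w hw j (Ne.symm hne)

/-! ### The combinatorial core -/

/-- Contraction of the element `(x, y, z)` of the net with three linear forms on `ℂ²`. -/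
def F (x y z p1 q1 p2 q2 p3 q3 : ℂ) : ℂ :=
  x * (p1 * p2 * q3 + p1 * q2 * p3) + y * (p1 * q2 * q3 + q1 * p2 * p3) +
    z * (q1 * p2 * q3 + q1 * q2 * p3 + p1 * p2 * q3)

theorem inv2 {A B p0 q0 p1 q1 : ℂ} (h0 : p0 * A + q0 * B = 0) (h1 : p1 * A + q1 * B = 0)
    (hD : p0 * q1 - q0 * p1 ≠ 0) : A = 0 ∧ B = 0 := by
  constructor
  · have : (p0 * q1 - q0 * p1) * A = 0 := by linear_combination q1 * h0 - q0 * h1
    exact (mul_eq_zero.1 this).resolve_left hD
  · have : (p0 * q1 - q0 * p1) * B = 0 := by linear_combination p0 * h1 - p1 * h0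
    exact (mul_eq_zero.1 this).resolve_left hD

theorem inv4 {a b c d p0 q0 p1 q1 r0 s0 r1 s1 : ℂ}
    (h00 : p0 * (r0 * a + s0 * b) + q0 * (r0 * c + s0 * d) = 0)
    (h01 : p0 * (r1 * a + s1 * b) + q0 * (r1 * c + s1 * d) = 0)
    (h10 : p1 * (r0 * a + s0 * b) + q1 * (r0 * c + s0 * d) = 0)
    (h11 : p1 * (r1 * a + s1 * b) + q1 * (r1 * c + s1 * d) = 0)
    (hD : p0 * q1 - q0 * p1 ≠ 0) (hE : r0 * s1 - s0 * r1 ≠ 0) :
    a = 0 ∧ b = 0 ∧ c = 0 ∧ d = 0 := by
  obtain ⟨e1, e2⟩ := inv2 h00 h10 hD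
  obtain ⟨e3, e4⟩ := inv2 h01 h11 hD
  obtain ⟨ha, hb⟩ := inv2 e1 e3 hE
  obtain ⟨hc, hd⟩ := inv2 e2 e4 hE
  exact ⟨ha, hb, hc, hd⟩

theorem killA {x y z p q p20 q20 p21 q21 p30 q30 p31 q31 : ℂ}
    (h00 : F x y z p q p20 q20 p30 q30 = 0) (h01 : F x y z p q p20 q20 p31 q31 = 0)
    (h10 : F x y z p q p21 q21 p30 q30 = 0) (h11 : F x y z p q p21 q21 p31 q31 = 0)
    (hD : p20 * q21 - q20 * p21 ≠ 0) (hE : p30 * q31 - q30 * p31 ≠ 0) (hpq : p ≠ 0 ∨ q ≠ 0) :
    y = 0 ∧ z = 0 ∧ p * x = 0 := by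
  unfold F at *
  obtain ⟨e1, e2, e3, e4⟩ := inv4 (a := q * y) (b := p * (x + z) + q * z) (c := p * x + q * z)
    (d := p * y) (p0 := p20) (q0 := q20) (p1 := p21) (q1 := q21) (r0 := p30) (s0 := q30)
    (r1 := p31) (s1 := q31) (by linear_combination h00) (by linear_combination h01)
    (by linear_combination h10) (by linear_combination h11) hD hE
  have hy : y = 0 := by
    rcases hpq with h | h
    · exact (mul_eq_zero.1 e4).resolve_left h
    · exact (mul_eq_zero.1 e1).resolve_left h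
  have hpz : p * z = 0 := by linear_combination e2 - e3
  have hz : z = 0 := by
    by_cases hp : p = 0
    · have hq := hpq.resolve_left (not_not.2 hp)
      rw [hp, zero_mul, zero_add] at e3
      exact (mul_eq_zero.1 e3).resolve_left hq
    · exact (mul_eq_zero.1 hpz).resolve_left hp
  refine ⟨hy, hz, ?_⟩
  rw [hz] at e3
  linear_combination e3

theorem killB {x y z p q p10 q10 p11 q11 p30 q30 p31 q31 : ℂ}
    (h00 : F x y z p10 q10 p q p30 q30 = 0) (h01 : F x y z p10 q10 p q p31 q31 = 0)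
    (h10 : F x y z p11 q11 p q p30 q30 = 0) (h11 : F x y z p11 q11 p q p31 q31 = 0)
    (hD : p10 * q11 - q10 * p11 ≠ 0) (hE : p30 * q31 - q30 * p31 ≠ 0) (hpq : p ≠ 0 ∨ q ≠ 0) :
    x = 0 ∧ y = 0 ∧ z = 0 := by
  unfold F at *
  obtain ⟨e1, e2, e3, e4⟩ := inv4 (a := q * x) (b := p * (x + z) + q * y) (c := p * y + q * z)
    (d := p * z) (p0 := p10) (q0 := q10) (p1 := p11) (q1 := q11) (r0 := p30) (s0 := q30)
    (r1 := p31) (s1 := q31) (by linear_combination h00) (by linear_combination h01)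
    (by linear_combination h10) (by linear_combination h11) hD hE
  by_cases hp : p = 0
  · have hq := hpq.resolve_left (not_not.2 hp)
    have hx := (mul_eq_zero.1 e1).resolve_left hq
    rw [hp, zero_mul, zero_add] at e2 e3
    exact ⟨hx, (mul_eq_zero.1 e2).resolve_left hq, (mul_eq_zero.1 e3).resolve_left hq⟩
  · have hz := (mul_eq_zero.1 e4).resolve_left hp
    rw [hz, mul_zero, add_zero] at e3
    have hy := (mul_eq_zero.1 e3).resolve_left hp
    rw [hz, hy, mul_zero, add_zero, add_zero] at e2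
    exact ⟨(mul_eq_zero.1 e2).resolve_left hp, hy, hz⟩

theorem killC {x y z p q p10 q10 p11 q11 p20 q20 p21 q21 : ℂ}
    (h00 : F x y z p10 q10 p20 q20 p q = 0) (h01 : F x y z p10 q10 p21 q21 p q = 0)
    (h10 : F x y z p11 q11 p20 q20 p q = 0) (h11 : F x y z p11 q11 p21 q21 p q = 0)
    (hD : p10 * q11 - q10 * p11 ≠ 0) (hE : p20 * q21 - q20 * p21 ≠ 0) (hpq : p ≠ 0 ∨ q ≠ 0) :
    x = 0 ∧ y = 0 ∧ z = 0 := by
  unfold F at *
  obtain ⟨e1, e2, e3, e4⟩ := inv4 (a := q * (x + z)) (b := p * x + q * y) (c := p * y + q * z)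
    (d := p * z) (p0 := p10) (q0 := q10) (p1 := p11) (q1 := q11) (r0 := p20) (s0 := q20)
    (r1 := p21) (s1 := q21) (by linear_combination h00) (by linear_combination h01)
    (by linear_combination h10) (by linear_combination h11) hD hE
  by_cases hp : p = 0
  · have hq := hpq.resolve_left (not_not.2 hp)
    rw [hp, zero_mul, zero_add] at e2 e3
    have hy := (mul_eq_zero.1 e2).resolve_left hq
    have hz := (mul_eq_zero.1 e3).resolve_left hq
    have hx := (mul_eq_zero.1 e1).resolve_left hq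
    rw [hz, add_zero] at hx
    exact ⟨hx, hy, hz⟩
  · have hz := (mul_eq_zero.1 e4).resolve_left hp
    rw [hz, mul_zero, add_zero] at e3
    have hy := (mul_eq_zero.1 e3).resolve_left hp
    rw [hy, mul_zero, add_zero] at e2
    exact ⟨(mul_eq_zero.1 e2).resolve_left hp, hy, hz⟩

theorem F_zero (p1 q1 p2 q2 p3 q3 : ℂ) : F 0 0 0 p1 q1 p2 q2 p3 q3 = 0 := by
  unfold F
  ring

theorem F_sub (x y z x' y' z' e p1 q1 p2 q2 p3 q3 : ℂ) :
    F (x - e * x') (y - e * y') (z - e * z') p1 q1 p2 q2 p3 q3 =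
      F x y z p1 q1 p2 q2 p3 q3 - e * F x' y' z' p1 q1 p2 q2 p3 q3 := by
  unfold F
  ring

/-- The numbers which are attached to a one-parameter degeneration: `u S`, `v S` for the subsets
`S` of the three last factors. -/
structure Data (x0 y0 z0 x1 y1 z1 p10 q10 p11 q11 p20 q20 p21 q21 p30 q30 p31 q31 : ℂ)
    (a1 a2 a3 : ℤ) : Prop where
  u000 : F x0 y0 z0 p10 q10 p20 q20 p30 q30 = 1
  u100 : F x0 y0 z0 p11 q11 p20 q20 p30 q30 ≠ 0 → 0 < a1
  u010 : F x0 y0 z0 p10 q10 p21 q21 p30 q30 ≠ 0 → 0 < a2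
  u001 : F x0 y0 z0 p10 q10 p20 q20 p31 q31 ≠ 0 → 0 < a3
  u110 : F x0 y0 z0 p11 q11 p21 q21 p30 q30 ≠ 0 → 0 < a1 + a2
  u101 : F x0 y0 z0 p11 q11 p20 q20 p31 q31 ≠ 0 → 0 < a1 + a3
  u011 : F x0 y0 z0 p10 q10 p21 q21 p31 q31 ≠ 0 → 0 < a2 + a3
  u111 : F x0 y0 z0 p11 q11 p21 q21 p31 q31 ≠ 0 → 0 < a1 + a2 + a3
  v111 : F x1 y1 z1 p11 q11 p21 q21 p31 q31 = 1
  v011 : F x1 y1 z1 p10 q10 p21 q21 p31 q31 ≠ 0 → a1 < 0
  v101 : F x1 y1 z1 p11 q11 p20 q20 p31 q31 ≠ 0 → a2 < 0
  v110 : F x1 y1 z1 p11 q11 p21 q21 p30 q30 ≠ 0 → a3 < 0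
  v001 : F x1 y1 z1 p10 q10 p20 q20 p31 q31 ≠ 0 → a1 + a2 < 0
  v010 : F x1 y1 z1 p10 q10 p21 q21 p30 q30 ≠ 0 → a1 + a3 < 0
  v100 : F x1 y1 z1 p11 q11 p20 q20 p30 q30 ≠ 0 → a2 + a3 < 0
  v000 : F x1 y1 z1 p10 q10 p20 q20 p30 q30 ≠ 0 → a1 + a2 + a3 < 0

variable {x0 y0 z0 x1 y1 z1 p10 q10 p11 q11 p20 q20 p21 q21 p30 q30 p31 q31 : ℂ} {a1 a2 a3 : ℤ}

theorem Data.D1 (h : Data x0 y0 z0 x1 y1 z1 p10 q10 p11 q11 p20 q20 p21 q21 p30 q30 p31 q31 a1 a2 a3) :
    p10 * q11 - q10 * p11 ≠ 0 := by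
  intro hD
  have hu := h.u000
  have hv := h.v111
  have e1 : p10 * F x0 y0 z0 p11 q11 p20 q20 p30 q30 = p11 * F x0 y0 z0 p10 q10 p20 q20 p30 q30 := by
    unfold F
    linear_combination (y0 * (p20 * p30) + z0 * (p20 * q30 + q20 * p30)) * hD
  rw [hu, mul_one] at e1
  have e2 : q10 * F x0 y0 z0 p11 q11 p20 q20 p30 q30 = q11 * F x0 y0 z0 p10 q10 p20 q20 p30 q30 := by
    unfold F
    linear_combination (-(x0 * (p20 * q30 + q20 * p30) + y0 * (q20 * q30) + z0 * (p20 * q30))) * hD
  rw [hu, mul_one] at e2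
  have e3 : p11 * F x1 y1 z1 p10 q10 p21 q21 p31 q31 = p10 * F x1 y1 z1 p11 q11 p21 q21 p31 q31 := by
    unfold F
    linear_combination (-(y1 * (p21 * p31) + z1 * (p21 * q31 + q21 * p31))) * hD
  rw [hv, mul_one] at e3
  have e4 : q11 * F x1 y1 z1 p10 q10 p21 q21 p31 q31 = q10 * F x1 y1 z1 p11 q11 p21 q21 p31 q31 := by
    unfold F
    linear_combination (x1 * (p21 * q31 + q21 * p31) + y1 * (q21 * q31) + z1 * (p21 * q31)) * hD
  rw [hv, mul_one] at e4
  have n1 : F x0 y0 z0 p11 q11 p20 q20 p30 q30 ≠ 0 := by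
    intro h0
    rw [h0, mul_zero] at e1 e2
    rw [← e1, ← e2] at hv
    unfold F at hv
    simp at hv
  have n2 : F x1 y1 z1 p10 q10 p21 q21 p31 q31 ≠ 0 := by
    intro h0
    rw [h0, mul_zero] at e3 e4
    rw [← e3, ← e4] at hu
    unfold F at hu
    simp at hu
  exact absurd (h.u100 n1) (not_lt.2 (h.v011 n2).le)

theorem Data.D2 (h : Data x0 y0 z0 x1 y1 z1 p10 q10 p11 q11 p20 q20 p21 q21 p30 q30 p31 q31 a1 a2 a3) :
    p20 * q21 - q20 * p21 ≠ 0 := by
  intro hD
  have hu := h.u000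
  have hv := h.v111
  have e1 : p20 * F x0 y0 z0 p10 q10 p21 q21 p30 q30 = p21 * F x0 y0 z0 p10 q10 p20 q20 p30 q30 := by
    unfold F
    linear_combination (x0 * (p10 * p30) + y0 * (p10 * q30) + z0 * (q10 * p30)) * hD
  rw [hu, mul_one] at e1
  have e2 : q20 * F x0 y0 z0 p10 q10 p21 q21 p30 q30 = q21 * F x0 y0 z0 p10 q10 p20 q20 p30 q30 := by
    unfold F
    linear_combination (-(x0 * (p10 * q30) + y0 * (q10 * p30) + z0 * (q10 * q30 + p10 * q30))) * hD
  rw [hu, mul_one] at e2
  have e3 : p21 * F x1 y1 z1 p11 q11 p20 q20 p31 q31 = p20 * F x1 y1 z1 p11 q11 p21 q21 p31 q31 := by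
    unfold F
    linear_combination (-(x1 * (p11 * p31) + y1 * (p11 * q31) + z1 * (q11 * p31))) * hD
  rw [hv, mul_one] at e3
  have e4 : q21 * F x1 y1 z1 p11 q11 p20 q20 p31 q31 = q20 * F x1 y1 z1 p11 q11 p21 q21 p31 q31 := by
    unfold F
    linear_combination (x1 * (p11 * q31) + y1 * (q11 * p31) + z1 * (q11 * q31 + p11 * q31)) * hD
  rw [hv, mul_one] at e4
  have n1 : F x0 y0 z0 p10 q10 p21 q21 p30 q30 ≠ 0 := by
    intro h0
    rw [h0, mul_zero] at e1 e2
    rw [← e1, ← e2] at hv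
    unfold F at hv
    simp at hv
  have n2 : F x1 y1 z1 p11 q11 p20 q20 p31 q31 ≠ 0 := by
    intro h0
    rw [h0, mul_zero] at e3 e4
    rw [← e3, ← e4] at hu
    unfold F at hu
    simp at hu
  exact absurd (h.u010 n1) (not_lt.2 (h.v101 n2).le)

theorem Data.D3 (h : Data x0 y0 z0 x1 y1 z1 p10 q10 p11 q11 p20 q20 p21 q21 p30 q30 p31 q31 a1 a2 a3) :
    p30 * q31 - q30 * p31 ≠ 0 := by
  intro hD
  have hu := h.u000
  have hv := h.v111
  have e1 : p30 * F x0 y0 z0 p10 q10 p20 q20 p31 q31 = p31 * F x0 y0 z0 p10 q10 p20 q20 p30 q30 := by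
    unfold F
    linear_combination (x0 * (p10 * p20) + y0 * (p10 * q20) + z0 * (q10 * p20 + p10 * p20)) * hD
  rw [hu, mul_one] at e1
  have e2 : q30 * F x0 y0 z0 p10 q10 p20 q20 p31 q31 = q31 * F x0 y0 z0 p10 q10 p20 q20 p30 q30 := by
    unfold F
    linear_combination (-(x0 * (p10 * q20) + y0 * (q10 * p20) + z0 * (q10 * q20))) * hD
  rw [hu, mul_one] at e2
  have e3 : p31 * F x1 y1 z1 p11 q11 p21 q21 p30 q30 = p30 * F x1 y1 z1 p11 q11 p21 q21 p31 q31 := by
    unfold F
    linear_combination (-(x1 * (p11 * p21) + y1 * (p11 * q21) + z1 * (q11 * p21 + p11 * p21))) * hD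
  rw [hv, mul_one] at e3
  have e4 : q31 * F x1 y1 z1 p11 q11 p21 q21 p30 q30 = q30 * F x1 y1 z1 p11 q11 p21 q21 p31 q31 := by
    unfold F
    linear_combination (x1 * (p11 * q21) + y1 * (q11 * p21) + z1 * (q11 * q21)) * hD
  rw [hv, mul_one] at e4
  have n1 : F x0 y0 z0 p10 q10 p20 q20 p31 q31 ≠ 0 := by
    intro h0
    rw [h0, mul_zero] at e1 e2
    rw [← e1, ← e2] at hv
    unfold F at hv
    simp at hv
  have n2 : F x1 y1 z1 p11 q11 p21 q21 p30 q30 ≠ 0 := by
    intro h0
    rw [h0, mul_zero] at e3 e4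
    rw [← e3, ← e4] at hu
    unfold F at hu
    simp at hu
  exact absurd (h.u001 n1) (not_lt.2 (h.v110 n2).le)

theorem ne_of_det {a b c d : ℂ} (h : a * d - b * c ≠ 0) : a ≠ 0 ∨ b ≠ 0 := by
  by_contra hcon
  push Not at hcon
  rw [hcon.1, hcon.2] at h
  simp at h

theorem ne_of_det' {a b c d : ℂ} (h : a * d - b * c ≠ 0) : c ≠ 0 ∨ d ≠ 0 := by
  by_contra hcon
  push Not at hcon
  rw [hcon.1, hcon.2] at h
  simp at h

theorem Data.core
    (h : Data x0 y0 z0 x1 y1 z1 p10 q10 p11 q11 p20 q20 p21 q21 p30 q30 p31 q31 a1 a2 a3)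
    (hs : (0 ≤ a1 ∧ 0 ≤ a2 ∧ 0 ≤ a3) ∨ (a1 < 0 ∧ 0 ≤ a2 ∧ 0 ≤ a3) ∨ (0 ≤ a1 ∧ a2 < 0 ∧ 0 ≤ a3) ∨
      (0 ≤ a1 ∧ 0 ≤ a2 ∧ a3 < 0)) : False := by
  have D1 := h.D1
  have D2 := h.D2
  have D3 := h.D3
  have hv := h.v111
  have hu := h.u000
  -- the second and the third factor cannot be killed
  have KB : F x1 y1 z1 p10 q10 p20 q20 p30 q30 = 0 → F x1 y1 z1 p10 q10 p20 q20 p31 q31 = 0 →
      F x1 y1 z1 p11 q11 p20 q20 p30 q30 = 0 → F x1 y1 z1 p11 q11 p20 q20 p31 q31 = 0 → False := by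
    intro e1 e2 e3 e4
    obtain ⟨hx, hy, hz⟩ := killB e1 e2 e3 e4 D1 D3 (ne_of_det D2)
    rw [hx, hy, hz, F_zero] at hv
    exact zero_ne_one hv
  have KC : F x1 y1 z1 p10 q10 p20 q20 p30 q30 = 0 → F x1 y1 z1 p10 q10 p21 q21 p30 q30 = 0 →
      F x1 y1 z1 p11 q11 p20 q20 p30 q30 = 0 → F x1 y1 z1 p11 q11 p21 q21 p30 q30 = 0 → False := by
    intro e1 e2 e3 e4
    obtain ⟨hx, hy, hz⟩ := killC e1 e2 e3 e4 D1 D2 (ne_of_det D3)
    rw [hx, hy, hz, F_zero] at hv
    exact zero_ne_one hv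
  have zv : ∀ {c : ℂ} {P : Prop}, (c ≠ 0 → P) → ¬ P → c = 0 := fun h1 h2 =>
    by_contra fun h3 => h2 (h1 h3)
  rcases hs with ⟨s1, s2, s3⟩ | ⟨s1, s2, s3⟩ | ⟨s1, s2, s3⟩ | ⟨s1, s2, s3⟩
  · exact KB (zv h.v000 (by omega)) (zv h.v001 (by omega)) (zv h.v100 (by omega))
      (zv h.v101 (by omega))
  · by_cases c12 : 0 ≤ a1 + a2
    · exact KB (zv h.v000 (by omega)) (zv h.v001 (by omega)) (zv h.v100 (by omega))
        (zv h.v101 (by omega))
    by_cases c13 : 0 ≤ a1 + a3
    · exact KC (zv h.v000 (by omega)) (zv h.v010 (by omega)) (zv h.v100 (by omega))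
        (zv h.v110 (by omega))
    have u100 := zv h.u100 (by omega)
    have u110 := zv h.u110 (by omega)
    have u101 := zv h.u101 (by omega)
    have v100 := zv h.v100 (by omega)
    have v110 := zv h.v110 (by omega)
    have v101 := zv h.v101 (by omega)
    obtain ⟨e, he⟩ : ∃ e, e = F x0 y0 z0 p11 q11 p21 q21 p31 q31 := ⟨_, rfl⟩
    obtain ⟨hy, hz, hx⟩ := killA (x := x0 - e * x1) (y := y0 - e * y1) (z := z0 - e * z1)
      (p := p11) (q := q11) (p20 := p20) (q20 := q20) (p21 := p21) (q21 := q21) (p30 := p30)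
      (q30 := q30) (p31 := p31) (q31 := q31) (by rw [F_sub, u100, v100]; ring)
      (by rw [F_sub, u101, v101]; ring) (by rw [F_sub, u110, v110]; ring)
      (by rw [F_sub, hv, ← he]; ring) D2 D3 (ne_of_det' D1)
    have hev : e * F x1 y1 z1 p10 q10 p20 q20 p30 q30 = 0 := by
      by_cases he0 : e = 0
      · rw [he0, zero_mul]
      · have := h.u111 (he ▸ he0)
        rw [zv h.v000 (by omega), mul_zero]
    have hu' : F (x0 - e * x1) (y0 - e * y1) (z0 - e * z1) p10 q10 p20 q20 p30 q30 = 1 := by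
      rw [F_sub, hu, hev, sub_zero]
    rw [hy, hz] at hu'
    have hx0 : x0 - e * x1 ≠ 0 := by
      intro h0
      rw [h0, F_zero] at hu'
      exact zero_ne_one hu'
    have hp11 : p11 = 0 := (mul_eq_zero.1 hx).resolve_right hx0
    have hq11 : q11 ≠ 0 := (ne_of_det' D1).resolve_left (not_not.2 hp11)
    rw [hp11] at v100 v110 v101 hv
    have g1 : p30 * (y1 * p20 + z1 * q20) + q30 * (z1 * p20) = 0 := by
      apply mul_left_cancel₀ hq11
      unfold F at v100
      linear_combination v100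
    have g2 : p31 * (y1 * p20 + z1 * q20) + q31 * (z1 * p20) = 0 := by
      apply mul_left_cancel₀ hq11
      unfold F at v101
      linear_combination v101
    have g3 : p21 * (y1 * p30 + z1 * q30) + q21 * (z1 * p30) = 0 := by
      apply mul_left_cancel₀ hq11
      unfold F at v110
      linear_combination v110
    have g4 : p20 * (y1 * p30 + z1 * q30) + q20 * (z1 * p30) = 0 := by
      apply mul_left_cancel₀ hq11
      unfold F at v100
      linear_combination v100
    obtain ⟨f1, f2⟩ := inv2 g1 g2 D3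
    obtain ⟨f3, f4⟩ := inv2 g4 g3 D2
    have hz1 : z1 = 0 := by
      by_contra hz1
      have hp20 : p20 = 0 := (mul_eq_zero.1 f2).resolve_left hz1
      rw [hp20, mul_zero, zero_add] at f1
      have hq20 : q20 = 0 := (mul_eq_zero.1 f1).resolve_left hz1
      rcases ne_of_det D2 with h5 | h5
      · exact h5 hp20
      · exact h5 hq20
    have hy1 : y1 ≠ 0 := by
      intro hy1
      rw [hz1, hy1] at hv
      unfold F at hv
      simp at hv
    rw [hz1, zero_mul, add_zero] at f1 f3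
    have hp20 : p20 = 0 := (mul_eq_zero.1 f1).resolve_left hy1
    have hp30 : p30 = 0 := (mul_eq_zero.1 f3).resolve_left hy1
    rw [hp20, hp30] at hu'
    unfold F at hu'
    simp at hu'
  · by_cases c23 : 0 ≤ a2 + a3
    · exact KC (zv h.v000 (by omega)) (zv h.v010 (by omega)) (zv h.v100 (by omega))
        (zv h.v110 (by omega))
    by_cases c12 : 0 ≤ a1 + a2
    · obtain ⟨hy, hz, hx⟩ := killA (zv h.v000 (by omega)) (zv h.v001 (by omega))
        (zv h.v010 (by omega)) (zv h.v011 (by omega)) D2 D3 (ne_of_det D1)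
      have hx1 : x1 ≠ 0 := by
        intro h0
        rw [h0, hy, hz, F_zero] at hv
        exact zero_ne_one hv
      have hp10 : p10 = 0 := (mul_eq_zero.1 hx).resolve_right hx1
      have hq10 : q10 ≠ 0 := (ne_of_det D1).resolve_left (not_not.2 hp10)
      have u010 := zv h.u010 (by omega)
      have u011 := zv h.u011 (by omega)
      have v110 := zv h.v110 (by omega)
      rw [hp10] at u010 u011 hu
      rw [hy, hz] at v110 hv
      have g1 : p30 * (y0 * p21 + z0 * q21) + q30 * (z0 * p21) = 0 := by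
        apply mul_left_cancel₀ hq10
        unfold F at u010
        linear_combination u010
      have g2 : p31 * (y0 * p21 + z0 * q21) + q31 * (z0 * p21) = 0 := by
        apply mul_left_cancel₀ hq10
        unfold F at u011
        linear_combination u011
      obtain ⟨f1, f2⟩ := inv2 g1 g2 D3
      have hz0 : z0 = 0 := by
        by_contra hz0
        have hp21 : p21 = 0 := (mul_eq_zero.1 f2).resolve_left hz0
        rw [hp21, mul_zero, zero_add] at f1
        have hq21 : q21 = 0 := (mul_eq_zero.1 f1).resolve_left hz0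
        rcases ne_of_det' D2 with h5 | h5
        · exact h5 hp21
        · exact h5 hq21
      have hy0 : y0 ≠ 0 := by
        intro hy0
        rw [hz0, hy0] at hu
        unfold F at hu
        simp at hu
      rw [hz0, zero_mul, add_zero] at f1
      have hp21 : p21 = 0 := (mul_eq_zero.1 f1).resolve_left hy0
      rw [hp21] at v110 hv
      have hv' : x1 * p11 * q21 * p31 = 1 := by
        unfold F at hv
        linear_combination hv
      have hv'' : x1 * p11 * q21 * p30 = 0 := by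
        unfold F at v110
        linear_combination v110
      have hp30 : p30 = 0 := by
        refine (mul_eq_zero.1 hv'').resolve_left fun h0 => ?_
        rw [h0, zero_mul] at hv'
        exact zero_ne_one hv'
      rw [hz0, hp30] at hu
      unfold F at hu
      simp at hu
    · have u010 := zv h.u010 (by omega)
      have u110 := zv h.u110 (by omega)
      have u011 := zv h.u011 (by omega)
      have v010 := zv h.v010 (by omega)
      have v110 := zv h.v110 (by omega)
      have v011 := zv h.v011 (by omega)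
      obtain ⟨e, he⟩ : ∃ e, e = F x0 y0 z0 p11 q11 p21 q21 p31 q31 := ⟨_, rfl⟩
      obtain ⟨hx, hy, hz⟩ := killB (x := x0 - e * x1) (y := y0 - e * y1) (z := z0 - e * z1)
        (p := p21) (q := q21) (p10 := p10) (q10 := q10) (p11 := p11) (q11 := q11) (p30 := p30)
        (q30 := q30) (p31 := p31) (q31 := q31) (by rw [F_sub, u010, v010]; ring)
        (by rw [F_sub, u011, v011]; ring) (by rw [F_sub, u110, v110]; ring)
        (by rw [F_sub, hv, ← he]; ring) D1 D3 (ne_of_det' D2)
      have hev : e * F x1 y1 z1 p10 q10 p20 q20 p30 q30 = 0 := by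
        by_cases he0 : e = 0
        · rw [he0, zero_mul]
        · have := h.u111 (he ▸ he0)
          rw [zv h.v000 (by omega), mul_zero]
      have hu' : F (x0 - e * x1) (y0 - e * y1) (z0 - e * z1) p10 q10 p20 q20 p30 q30 = 1 := by
        rw [F_sub, hu, hev, sub_zero]
      rw [hx, hy, hz, F_zero] at hu'
      exact zero_ne_one hu'
  · by_cases c23 : 0 ≤ a2 + a3
    · exact KB (zv h.v000 (by omega)) (zv h.v001 (by omega)) (zv h.v100 (by omega))
        (zv h.v101 (by omega))
    by_cases c13 : 0 ≤ a1 + a3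
    · obtain ⟨hy, hz, hx⟩ := killA (zv h.v000 (by omega)) (zv h.v001 (by omega))
        (zv h.v010 (by omega)) (zv h.v011 (by omega)) D2 D3 (ne_of_det D1)
      have hx1 : x1 ≠ 0 := by
        intro h0
        rw [h0, hy, hz, F_zero] at hv
        exact zero_ne_one hv
      have hp10 : p10 = 0 := (mul_eq_zero.1 hx).resolve_right hx1
      have hq10 : q10 ≠ 0 := (ne_of_det D1).resolve_left (not_not.2 hp10)
      have u001 := zv h.u001 (by omega)
      have u011 := zv h.u011 (by omega)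
      have v101 := zv h.v101 (by omega)
      rw [hp10] at u001 u011 hu
      rw [hy, hz] at v101 hv
      have g1 : p20 * (y0 * p31 + z0 * q31) + q20 * (z0 * p31) = 0 := by
        apply mul_left_cancel₀ hq10
        unfold F at u001
        linear_combination u001
      have g2 : p21 * (y0 * p31 + z0 * q31) + q21 * (z0 * p31) = 0 := by
        apply mul_left_cancel₀ hq10
        unfold F at u011
        linear_combination u011
      obtain ⟨f1, f2⟩ := inv2 g1 g2 D2
      have hz0 : z0 = 0 := by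
        by_contra hz0
        have hp31 : p31 = 0 := (mul_eq_zero.1 f2).resolve_left hz0
        rw [hp31, mul_zero, zero_add] at f1
        have hq31 : q31 = 0 := (mul_eq_zero.1 f1).resolve_left hz0
        rcases ne_of_det' D3 with h5 | h5
        · exact h5 hp31
        · exact h5 hq31
      have hy0 : y0 ≠ 0 := by
        intro hy0
        rw [hz0, hy0] at hu
        unfold F at hu
        simp at hu
      rw [hz0, zero_mul, add_zero] at f1
      have hp31 : p31 = 0 := (mul_eq_zero.1 f1).resolve_left hy0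
      rw [hp31] at v101 hv
      have hv' : x1 * p11 * q31 * p21 = 1 := by
        unfold F at hv
        linear_combination hv
      have hv'' : x1 * p11 * q31 * p20 = 0 := by
        unfold F at v101
        linear_combination v101
      have hp20 : p20 = 0 := by
        refine (mul_eq_zero.1 hv'').resolve_left fun h0 => ?_
        rw [h0, zero_mul] at hv'
        exact zero_ne_one hv'
      rw [hz0, hp20] at hu
      unfold F at hu
      simp at hu
    · have u001 := zv h.u001 (by omega)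
      have u101 := zv h.u101 (by omega)
      have u011 := zv h.u011 (by omega)
      have v001 := zv h.v001 (by omega)
      have v101 := zv h.v101 (by omega)
      have v011 := zv h.v011 (by omega)
      obtain ⟨e, he⟩ : ∃ e, e = F x0 y0 z0 p11 q11 p21 q21 p31 q31 := ⟨_, rfl⟩
      obtain ⟨hx, hy, hz⟩ := killC (x := x0 - e * x1) (y := y0 - e * y1) (z := z0 - e * z1)
        (p := p31) (q := q31) (p10 := p10) (q10 := q10) (p11 := p11) (q11 := q11) (p20 := p20)
        (q20 := q20) (p21 := p21) (q21 := q21) (by rw [F_sub, u001, v001]; ring)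
        (by rw [F_sub, u011, v011]; ring) (by rw [F_sub, u101, v101]; ring)
        (by rw [F_sub, hv, ← he]; ring) D1 D2 (ne_of_det' D3)
      have hev : e * F x1 y1 z1 p10 q10 p20 q20 p30 q30 = 0 := by
        by_cases he0 : e = 0
        · rw [he0, zero_mul]
        · have := h.u111 (he ▸ he0)
          rw [zv h.v000 (by omega), mul_zero]
      have hu' : F (x0 - e * x1) (y0 - e * y1) (z0 - e * z1) p10 q10 p20 q20 p30 q30 = 1 := by
        rw [F_sub, hu, hev, sub_zero]
      rw [hx, hy, hz, F_zero] at hu'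
      exact zero_ne_one hu'

theorem Data.swap
    (h : Data x0 y0 z0 x1 y1 z1 p10 q10 p11 q11 p20 q20 p21 q21 p30 q30 p31 q31 a1 a2 a3) :
    Data x1 y1 z1 x0 y0 z0 p11 q11 p10 q10 p21 q21 p20 q20 p31 q31 p30 q30 (-a1) (-a2) (-a3) where
  u000 := h.v111
  u100 := fun h' => by have := h.v011 h'; omega
  u010 := fun h' => by have := h.v101 h'; omega
  u001 := fun h' => by have := h.v110 h'; omega
  u110 := fun h' => by have := h.v001 h'; omega
  u101 := fun h' => by have := h.v010 h'; omega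
  u011 := fun h' => by have := h.v100 h'; omega
  u111 := fun h' => by have := h.v000 h'; omega
  v111 := h.u000
  v011 := fun h' => by have := h.u100 h'; omega
  v101 := fun h' => by have := h.u010 h'; omega
  v110 := fun h' => by have := h.u001 h'; omega
  v001 := fun h' => by have := h.u110 h'; omega
  v010 := fun h' => by have := h.u101 h'; omega
  v100 := fun h' => by have := h.u011 h'; omega
  v000 := fun h' => by have := h.u111 h'; omega

theorem Data.false
    (h : Data x0 y0 z0 x1 y1 z1 p10 q10 p11 q11 p20 q20 p21 q21 p30 q30 p31 q31 a1 a2 a3) :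
    False := by
  by_cases hs : (0 ≤ a1 ∧ 0 ≤ a2 ∧ 0 ≤ a3) ∨ (a1 < 0 ∧ 0 ≤ a2 ∧ 0 ≤ a3) ∨
      (0 ≤ a1 ∧ a2 < 0 ∧ 0 ≤ a3) ∨ (0 ≤ a1 ∧ 0 ≤ a2 ∧ a3 < 0)
  · exact h.core hs
  · exact h.swap.core (by omega)

/-! ### The tensor -/

/-- The support of the tensor. -/
def supp : Fin 7 → Fin 4 → Fin 3 :=
  ![![0, 0, 0, 1], ![0, 0, 1, 0], ![1, 0, 1, 1], ![1, 1, 0, 0], ![2, 1, 0, 1], ![2, 1, 1, 0],
    ![2, 0, 0, 1]]

/-- The tensor, a sum of seven basis vectors. -/
noncomputable def T : Tensor 4 3 := fun i => ∑ m : Fin 7, if i = supp m then 1 else 0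

theorem con_sum {d n : ℕ} {ι : Type*} [Fintype ι] (f : Fin d → Fin n → ℂ) (c : ι → ℂ)
    (s : ι → Fin d → Fin n) :
    con f (fun i => ∑ m, if i = s m then c m else 0) = ∑ m, c m * ∏ k, f k (s m k) := by
  unfold con
  simp only [Finset.mul_sum]
  rw [Finset.sum_comm]
  refine Finset.sum_congr rfl fun m _ => ?_
  simp only [mul_ite, mul_zero]
  rw [Finset.sum_ite_eq', if_pos (Finset.mem_univ _)]
  ring

theorem con_T (f : Fin 4 → Fin 3 → ℂ) : con f T =
    F (f 0 0) (f 0 1) (f 0 2) (f 1 0) (f 1 1) (f 2 0) (f 2 1) (f 3 0) (f 3 1) := by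
  unfold T
  rw [con_sum f (fun _ => 1) supp, F]
  simp only [Fin.sum_univ_seven, Fin.prod_univ_four]
  simp [supp]
  ring

theorem act_eq_con {d n : ℕ} (A : Fin d → Matrix (Fin n) (Fin n) ℂ) (X : Tensor d n)
    (i : Fin d → Fin n) : act A X i = con (fun k a => A k (i k) a) X := rfl

theorem unit2_apply (i : Fin 4 → Fin 3) : unitTensor 4 3 2 i =
    (∑ m : Fin 2, if i = (fun _ => (m.castSucc : Fin 3)) then (1 : ℂ) else 0) := by
  have h0 : ((0 : Fin 2).castSucc : Fin 3) = 0 := rfl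
  have h1 : ((1 : Fin 2).castSucc : Fin 3) = 1 := rfl
  rw [Fin.sum_univ_two, h0, h1]
  unfold unitTensor
  by_cases i0 : i = fun _ => 0
  · have : i ≠ fun _ => 1 := by
      rintro rfl
      exact absurd (congrFun i0 0) (by decide)
    rw [if_pos i0, if_neg this, if_pos ⟨0, by decide, fun k => congrFun i0 k⟩, add_zero]
  · by_cases i1 : i = fun _ => 1
    · rw [if_neg i0, if_pos i1, if_pos ⟨1, by decide, fun k => congrFun i1 k⟩, zero_add]
    · rw [if_neg i0, if_neg i1, if_neg, add_zero]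
      rintro ⟨a, ha, hk⟩
      have ha' : a = 0 ∨ a = 1 := by
        fin_cases a
        · exact Or.inl rfl
        · exact Or.inr rfl
        · exact absurd ha (by decide)
      rcases ha' with rfl | rfl
      · exact i0 (funext hk)
      · exact i1 (funext hk)

theorem con_unit2 (f : Fin 4 → Fin 3 → ℂ) :
    con f (unitTensor 4 3 2) = (∏ k, f k 0) + ∏ k, f k 1 := by
  have h : unitTensor 4 3 2 = fun i : Fin 4 → Fin 3 => ∑ m : Fin 2,
      if i = (fun _ => (m.castSucc : Fin 3)) then (1 : ℂ) else 0 := funext unit2_apply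
  rw [h, con_sum f (fun _ => 1) (fun (m : Fin 2) _ => m.castSucc), Fin.sum_univ_two, one_mul,
    one_mul]
  rfl

/-! ### The stabilizer of the unit tensor -/

theorem stab_col (A : Fin 4 → GL (Fin 3) ℂ)
    (h : act (fun k => (A k).1) (unitTensor 4 3 2) = unitTensor 4 3 2) (c0 : Fin 3)
    (hc : c0 = 0 ∨ c0 = 1) :
    ∃ a : Fin 3, (a = 0 ∨ a = 1) ∧ ∀ k b, b ≠ a → (A k).1 b c0 = 0 := by
  have hB : ∀ k (a b : Fin 3), ∑ x, ((A k)⁻¹).1 a x * (A k).1 x b = if a = b then 1 else 0 := by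
    intro k a b
    have h1 : ((A k)⁻¹ * A k).1 = 1 := by rw [inv_mul_cancel]; rfl
    have h2 := congrFun (congrFun h1 a) b
    rw [Units.val_mul, Matrix.mul_apply, Matrix.one_apply] at h2
    exact h2
  have hne : ∀ k, ∃ a, (A k).1 a c0 ≠ 0 := by
    intro k
    by_contra hcon
    push Not at hcon
    have := hB k c0 c0
    simp only [hcon, mul_zero, Finset.sum_const_zero, if_true] at this
    exact zero_ne_one this
  have key : ∀ l : Fin 4, l ≠ 0 → ∀ a b : Fin 3, (a ≠ b ∨ a = 2) →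
      (A 0).1 a c0 * (A l).1 b c0 = 0 := by
    intro l hl a b hab
    have h1 := congrArg (con (fun m c => if m = 0 then (if c = a then 1 else 0) else
      if m = l then (if c = b then 1 else 0) else ((A m)⁻¹).1 c0 c)) h
    rw [con_act, con_unit2, con_unit2] at h1
    simp only [Fin.prod_univ_four] at h1
    have hab0 : ¬ (a = 0 ∧ b = 0) := by
      rintro ⟨rfl, rfl⟩
      rcases hab with h2 | h2
      · exact h2 rfl
      · exact absurd h2 (by decide)
    have hab1 : ¬ (a = 1 ∧ b = 1) := by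
      rintro ⟨rfl, rfl⟩
      rcases hab with h2 | h2
      · exact h2 rfl
      · exact absurd h2 (by decide)
    have z0 : (if (0 : Fin 3) = a then (1 : ℂ) else 0) * (if (0 : Fin 3) = b then (1 : ℂ) else 0) =
        0 := by
      by_cases q1 : (0 : Fin 3) = a
      · by_cases q2 : (0 : Fin 3) = b
        · exact absurd ⟨q1.symm, q2.symm⟩ hab0
        · rw [if_neg q2, mul_zero]
      · rw [if_neg q1, zero_mul]
    have z1 : (if (1 : Fin 3) = a then (1 : ℂ) else 0) * (if (1 : Fin 3) = b then (1 : ℂ) else 0) =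
        0 := by
      by_cases q1 : (1 : Fin 3) = a
      · by_cases q2 : (1 : Fin 3) = b
        · exact absurd ⟨q1.symm, q2.symm⟩ hab1
        · rw [if_neg q2, mul_zero]
      · rw [if_neg q1, zero_mul]
    have s1 : ∀ (k : Fin 4) (x y : Fin 3), ∑ c, (if c = x then (1 : ℂ) else 0) * (A k).1 c y =
        (A k).1 x y := by
      intro k x y
      simp
    fin_cases l
    · exact absurd rfl hl
    · simp only [Fin.reduceFinMk, Fin.isValue, if_true, if_false,
        show ((2 : Fin 4) = 0) = False from by decide, show ((3 : Fin 4) = 0) = False from by decide,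
        show ((1 : Fin 4) = 0) = False from by decide, show ((2 : Fin 4) = 1) = False from by decide,
        show ((3 : Fin 4) = 1) = False from by decide, s1, hB] at h1 ⊢
      rcases hc with rfl | rfl
      · simp only [if_true, show ((0 : Fin 3) = 1) = False from by decide, if_false] at h1
        linear_combination h1 + (((A 2)⁻¹).1 0 0 * ((A 3)⁻¹).1 0 0) * z0 +
          (((A 2)⁻¹).1 0 1 * ((A 3)⁻¹).1 0 1) * z1
      · simp only [if_true, show ((1 : Fin 3) = 0) = False from by decide, if_false] at h1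
        linear_combination h1 + (((A 2)⁻¹).1 1 0 * ((A 3)⁻¹).1 1 0) * z0 +
          (((A 2)⁻¹).1 1 1 * ((A 3)⁻¹).1 1 1) * z1
    · simp only [Fin.reduceFinMk, Fin.isValue, if_true, if_false,
        show ((2 : Fin 4) = 0) = False from by decide, show ((3 : Fin 4) = 0) = False from by decide,
        show ((1 : Fin 4) = 0) = False from by decide, show ((1 : Fin 4) = 2) = False from by decide,
        show ((3 : Fin 4) = 2) = False from by decide, s1, hB] at h1 ⊢
      rcases hc with rfl | rfl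
      · simp only [if_true, show ((0 : Fin 3) = 1) = False from by decide, if_false] at h1
        linear_combination h1 + (((A 1)⁻¹).1 0 0 * ((A 3)⁻¹).1 0 0) * z0 +
          (((A 1)⁻¹).1 0 1 * ((A 3)⁻¹).1 0 1) * z1
      · simp only [if_true, show ((1 : Fin 3) = 0) = False from by decide, if_false] at h1
        linear_combination h1 + (((A 1)⁻¹).1 1 0 * ((A 3)⁻¹).1 1 0) * z0 +
          (((A 1)⁻¹).1 1 1 * ((A 3)⁻¹).1 1 1) * z1
    · simp only [Fin.reduceFinMk, Fin.isValue, if_true, if_false,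
        show ((2 : Fin 4) = 0) = False from by decide, show ((3 : Fin 4) = 0) = False from by decide,
        show ((1 : Fin 4) = 0) = False from by decide, show ((1 : Fin 4) = 3) = False from by decide,
        show ((2 : Fin 4) = 3) = False from by decide, s1, hB] at h1 ⊢
      rcases hc with rfl | rfl
      · simp only [if_true, show ((0 : Fin 3) = 1) = False from by decide, if_false] at h1
        linear_combination h1 + (((A 1)⁻¹).1 0 0 * ((A 2)⁻¹).1 0 0) * z0 +
          (((A 1)⁻¹).1 0 1 * ((A 2)⁻¹).1 0 1) * z1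
      · simp only [if_true, show ((1 : Fin 3) = 0) = False from by decide, if_false] at h1
        linear_combination h1 + (((A 1)⁻¹).1 1 0 * ((A 2)⁻¹).1 1 0) * z0 +
          (((A 1)⁻¹).1 1 1 * ((A 2)⁻¹).1 1 1) * z1
  obtain ⟨a, ha⟩ := hne 0
  have h1 : ∀ l : Fin 4, l ≠ 0 → ∀ b, b ≠ a → (A l).1 b c0 = 0 := fun l hl b hb =>
    (mul_eq_zero.1 (key l hl a b (Or.inl (Ne.symm hb)))).resolve_left ha
  have h2 : (A 1).1 a c0 ≠ 0 := by
    obtain ⟨b, hb⟩ := hne 1
    by_cases hba : b = a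
    · exact hba ▸ hb
    · exact absurd (h1 1 (by decide) b hba) hb
  refine ⟨a, ?_, ?_⟩
  · by_contra hcon
    push Not at hcon
    have ha2 : a = 2 := by
      fin_cases a
      · exact absurd rfl hcon.1
      · exact absurd rfl hcon.2
      · rfl
    rcases mul_eq_zero.1 (key 1 (by decide) a a (Or.inr ha2)) with h3 | h3
    · exact ha h3
    · exact h2 h3
  · intro k b hb
    by_cases hk : k = 0
    · rw [hk]
      exact (mul_eq_zero.1 (key 1 (by decide) b a (Or.inl hb))).resolve_right h2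
    · exact h1 k hk b hb

theorem stab_sq (A : Fin 4 → GL (Fin 3) ℂ)
    (h : act (fun k => (A k).1) (unitTensor 4 3 2) = unitTensor 4 3 2) (k : Fin 4) :
    (∀ b, b ≠ 0 → (A k * A k).1 b 0 = 0) ∧ ∀ b, b ≠ 1 → (A k * A k).1 b 1 = 0 := by
  obtain ⟨a0, ha0, h0⟩ := stab_col A h 0 (Or.inl rfl)
  obtain ⟨a1, ha1, h1⟩ := stab_col A h 1 (Or.inr rfl)
  have hmul : ∀ b c, (A k * A k).1 b c = ∑ x, (A k).1 b x * (A k).1 x c := fun b c => by
    rw [Units.val_mul, Matrix.mul_apply]
  have hne : a0 ≠ a1 := by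
    intro he
    have hB : ∀ (a b : Fin 3), ∑ x, ((A k)⁻¹).1 a x * (A k).1 x b = if a = b then 1 else 0 := by
      intro a b
      have h1 : ((A k)⁻¹ * A k).1 = 1 := by rw [inv_mul_cancel]; rfl
      have h2 := congrFun (congrFun h1 a) b
      rw [Units.val_mul, Matrix.mul_apply, Matrix.one_apply] at h2
      exact h2
    have e00 := hB 0 0
    have e01 := hB 0 1
    have e11 := hB 1 1
    rw [Finset.sum_eq_single a0 (fun x _ hx => by rw [h0 k x hx, mul_zero]) (by simp)] at e00
    rw [Finset.sum_eq_single a1 (fun x _ hx => by rw [h1 k x hx, mul_zero]) (by simp)] at e01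
    rw [Finset.sum_eq_single a1 (fun x _ hx => by rw [h1 k x hx, mul_zero]) (by simp)] at e11
    rw [if_pos rfl, he] at e00
    rw [if_neg (by decide)] at e01
    rw [if_pos rfl] at e11
    rcases mul_eq_zero.1 e01 with h2 | h2
    · rw [h2, zero_mul] at e00
      exact zero_ne_one e00
    · rw [h2, mul_zero] at e11
      exact zero_ne_one e11
  constructor
  · intro b hb
    rw [hmul]
    refine Finset.sum_eq_zero fun x _ => ?_
    by_cases hx : x = a0
    · rcases ha0 with e | e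
      · rw [hx, e, h0 k b (by rw [e]; exact hb), zero_mul]
      · have e1 : a1 = 0 := by
          rcases ha1 with e1 | e1
          · exact e1
          · exact absurd (e.trans e1.symm) hne
        rw [hx, e, h1 k b (by rw [e1]; exact hb), zero_mul]
    · rw [h0 k x hx, mul_zero]
  · intro b hb
    rw [hmul]
    refine Finset.sum_eq_zero fun x _ => ?_
    by_cases hx : x = a1
    · rcases ha1 with e | e
      · have e1 : a0 = 1 := by
          rcases ha0 with e1 | e1
          · exact absurd (e1.trans e.symm) hne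
          · exact e1
        rw [hx, e, h0 k b (by rw [e1]; exact hb), zero_mul]
      · rw [hx, e, h1 k b (by rw [e]; exact hb), zero_mul]
    · rw [h1 k x hx, mul_zero]

/-! ### Limits -/

theorem tendsto_coe : Tendsto (fun t : ℂˣ => (t : ℂ)) (comap (fun t : ℂˣ => (t : ℂ)) (𝓝 0)) (𝓝 0) :=
  tendsto_comap

theorem tendsto_zpow_pos (W : ℤ) (hW : 0 < W) :
    Tendsto (fun t : ℂˣ => (t : ℂ) ^ W) (comap (fun t : ℂˣ => (t : ℂ)) (𝓝 0)) (𝓝 0) := by
  obtain ⟨n, rfl⟩ := Int.eq_ofNat_of_zero_le hW.le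
  have hn : n ≠ 0 := by
    rintro rfl
    exact absurd hW (by decide)
  have h := tendsto_coe.pow n
  rw [zero_pow hn] at h
  simpa using h

theorem limit_cases (W : ℤ) (τ c : ℂ)
    (h : Tendsto (fun t : ℂˣ => (t : ℂ) ^ W * τ) (comap (fun t : ℂˣ => (t : ℂ)) (𝓝 0)) (𝓝 c)) :
    (0 < W ∧ c = 0) ∨ (W = 0 ∧ c = τ) ∨ (τ = 0 ∧ c = 0) := by
  have := neBot_zero
  rcases lt_trichotomy W 0 with hW | hW | hW
  · right; right
    have h1 := (tendsto_zpow_pos (-W) (by omega)).mul h
    rw [zero_mul] at h1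
    have h2 : (fun t : ℂˣ => (t : ℂ) ^ (-W) * ((t : ℂ) ^ W * τ)) = fun _ => τ := by
      funext t
      rw [← mul_assoc, ← zpow_add₀ t.ne_zero, neg_add_cancel, zpow_zero, one_mul]
    rw [h2] at h1
    have h3 : τ = 0 := tendsto_nhds_unique tendsto_const_nhds h1
    refine ⟨h3, ?_⟩
    rw [h3] at h
    simp only [mul_zero] at h
    exact tendsto_nhds_unique h tendsto_const_nhds
  · right; left
    refine ⟨hW, ?_⟩
    rw [hW] at h
    simp only [zpow_zero, one_mul] at h
    exact tendsto_nhds_unique h tendsto_const_nhds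
  · left
    refine ⟨hW, ?_⟩
    have h1 := (tendsto_zpow_pos W hW).mul_const τ
    rw [zero_mul] at h1
    exact tendsto_nhds_unique h h1

/-- After a change of bases the limit is the unit tensor. -/
theorem conj_limit {r : ℕ} (l : ℂˣ →* (Fin 4 → GL (Fin 3) ℂ)) (g : Fin 4 → GL (Fin 3) ℂ)
    (h : Tendsto (fun t : ℂˣ => act (fun k => (l t k).1) T) (comap (fun t : ℂˣ => (t : ℂ)) (𝓝 0))
      (𝓝 (act (fun k => (g k).1) (unitTensor 4 3 r)))) :
    Tendsto (fun t : ℂˣ => act (fun k => ((g k)⁻¹ * l t k * g k).1) (act (fun k => ((g k)⁻¹).1) T))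
      (comap (fun t : ℂˣ => (t : ℂ)) (𝓝 0)) (𝓝 (unitTensor 4 3 r)) := by
  have h1 := ((continuous_act fun k => ((g k)⁻¹).1).tendsto _).comp h
  have h2 : act (fun k => ((g k)⁻¹).1) (act (fun k => (g k).1) (unitTensor 4 3 r)) =
      unitTensor 4 3 r := by
    rw [act_act]
    have : (fun k => ((g k)⁻¹).1 * (g k).1) = fun _ : Fin 4 => (1 : Matrix (Fin 3) (Fin 3) ℂ) := by
      funext k
      rw [← Units.val_mul, inv_mul_cancel]
      rfl
    rw [this, act_one]
  rw [h2] at h1
  refine h1.congr fun t => ?_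
  simp only [Function.comp_apply, act_act]
  congr 1
  funext k
  simp only [Units.val_mul, mul_assoc]
  rw [← Units.val_mul (g k), mul_inv_cancel]
  simp

theorem no_hm2 (l : ℂˣ →* (Fin 4 → GL (Fin 3) ℂ)) (hl : IsOneParameterSubgroup l)
    (g : Fin 4 → GL (Fin 3) ℂ)
    (h : Tendsto (fun t : ℂˣ => act (fun k => (l t k).1) T) (comap (fun t : ℂˣ => (t : ℂ)) (𝓝 0))
      (𝓝 (act (fun k => (g k).1) (unitTensor 4 3 2)))) : False := by
  have := neBot_zero
  let M : ℂˣ → Fin 4 → GL (Fin 3) ℂ := fun t k => (g k)⁻¹ * l t k * g k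
  set T' : Tensor 4 3 := act (fun k => ((g k)⁻¹).1) T with hT'
  have hlim : Tendsto (fun t : ℂˣ => act (fun k => (M t k).1) T')
      (comap (fun t : ℂˣ => (t : ℂ)) (𝓝 0)) (𝓝 (unitTensor 4 3 2)) := conj_limit l g h
  have hmul : ∀ s t k, M (s * t) k = M s k * M t k := by
    intro s t k
    simp only [M, map_mul, Pi.mul_apply]
    group
  have hone : ∀ k, M 1 k = 1 := by
    intro k
    simp [M]
  have hfix : ∀ s, act (fun k => (M s k).1) (unitTensor 4 3 2) = unitTensor 4 3 2 := by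
    intro s
    have h1 := ((continuous_act fun k => (M s k).1).tendsto _).comp hlim
    have h2 : Tendsto (fun t : ℂˣ => s * t) (comap (fun t : ℂˣ => (t : ℂ)) (𝓝 0))
        (comap (fun t : ℂˣ => (t : ℂ)) (𝓝 0)) := by
      rw [tendsto_comap_iff]
      have h3 := tendsto_coe.const_mul (s : ℂ)
      rw [mul_zero] at h3
      refine h3.congr fun t => ?_
      simp
    have h3 := hlim.comp h2
    refine tendsto_nhds_unique (h1.congr fun t => ?_) h3
    simp only [Function.comp_apply, act_act]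
    congr 1
    funext k
    rw [hmul]
    exact (Units.val_mul _ _).symm
  have hcol : ∀ t k, (∀ b, b ≠ 0 → (M t k).1 b 0 = 0) ∧ ∀ b, b ≠ 1 → (M t k).1 b 1 = 0 := by
    intro t k
    obtain ⟨s, hs⟩ := IsAlgClosed.exists_pow_nat_eq (t : ℂ) (n := 2) (by norm_num)
    have hs0 : s ≠ 0 := by
      rintro rfl
      rw [zero_pow two_ne_zero] at hs
      exact t.ne_zero hs.symm
    have hst : Units.mk0 s hs0 * Units.mk0 s hs0 = t := by
      ext
      rw [Units.val_mul, Units.val_mk0, ← hs, sq]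
    have := stab_sq (M (Units.mk0 s hs0)) (hfix _) k
    rw [← hmul, hst] at this
    exact this
  have hentries : ∀ k a b, ∃ (N : ℕ) (p : Polynomial ℂ),
      ∀ t : ℂˣ, (M t k).1 a b * (t : ℂ) ^ N = p.eval (t : ℂ) := by
    intro k a b
    obtain ⟨N, K, C, hC⟩ := exists_expansion (fun t => (l t k).1) (hl k)
    refine ⟨N, ∑ m ∈ Finset.range K,
      Polynomial.C ((((g k)⁻¹).1 * C m * (g k).1) a b) * Polynomial.X ^ m, fun t => ?_⟩
    have e1 : (t : ℂ) ^ N • (l t k).1 = ∑ m ∈ Finset.range K, (t : ℂ) ^ m • C m := by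
      ext x y
      rw [Matrix.smul_apply, smul_eq_mul, mul_comm, hC, Matrix.sum_apply]
      refine Finset.sum_congr rfl fun m _ => ?_
      rw [Matrix.smul_apply, smul_eq_mul, mul_comm]
    have e2 : (M t k).1 a b * (t : ℂ) ^ N = (((g k)⁻¹).1 * ((t : ℂ) ^ N • (l t k).1) * (g k).1) a b := by
      simp only [M, Units.val_mul, Matrix.mul_smul, Matrix.smul_mul, Matrix.smul_apply, smul_eq_mul]
      ring
    rw [e2, e1, Finset.mul_sum, Finset.sum_mul, Matrix.sum_apply, Polynomial.eval_finsetSum]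
    refine Finset.sum_congr rfl fun m _ => ?_
    rw [Matrix.mul_smul, Matrix.smul_mul, Matrix.smul_apply, smul_eq_mul, Polynomial.eval_mul,
      Polynomial.eval_C, Polynomial.eval_pow, Polynomial.eval_X, mul_comm]
  have heig : ∀ (k : Fin 4) (j : Fin 3), (j = 0 ∨ j = 1) → ∃ (w : ℤ) (f : Fin 3 → ℂ),
      (∀ (t : ℂˣ) (b : Fin 3), ∑ a, f a * (M t k).1 a b = (t : ℂ) ^ w * f b) ∧
      f j = 1 ∧ ∀ j', (j' = 0 ∨ j' = 1) → j' ≠ j → f j' = 0 := by
    intro k j hj
    refine exists_eigenform (fun t => (M t k).1) (hentries k) (by rw [hone]; rfl)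
      (fun s t => by rw [hmul, Units.val_mul]) {j | j = 0 ∨ j = 1} ?_ j hj
    rintro j (rfl | rfl) t b hb
    · exact (hcol t k).1 b hb
    · exact (hcol t k).2 b hb
  choose w0 f0 hf0 hf00 hf01 using fun k => heig k 0 (Or.inl rfl)
  choose w1 f1 hf1 hf11 hf10 using fun k => heig k 1 (Or.inr rfl)
  have hz0 : ∀ k, f0 k 1 = 0 := fun k => hf01 k 1 (Or.inr rfl) (by decide)
  have hz1 : ∀ k, f1 k 0 = 0 := fun k => hf10 k 0 (Or.inl rfl) (by decide)
  -- the limit statement for the contractions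
  have hJ : ∀ J : Fin 4 → Bool, Tendsto (fun t : ℂˣ => (t : ℂ) ^ (∑ k, cond (J k) (w1 k) (w0 k)) *
      con (fun k => cond (J k) (f1 k) (f0 k)) T') (comap (fun t : ℂˣ => (t : ℂ)) (𝓝 0))
      (𝓝 ((∏ k, cond (J k) (0 : ℂ) 1) + ∏ k, cond (J k) (1 : ℂ) 0)) := by
    intro J
    have h1 := ((continuous_con fun k => cond (J k) (f1 k) (f0 k)).tendsto _).comp hlim
    rw [con_unit2] at h1
    have e1 : ∀ k, (cond (J k) (f1 k) (f0 k)) 0 = cond (J k) (0 : ℂ) 1 := by
      intro k
      cases J k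
      · exact hf00 k
      · exact hz1 k
    have e2 : ∀ k, (cond (J k) (f1 k) (f0 k)) 1 = cond (J k) (1 : ℂ) 0 := by
      intro k
      cases J k
      · exact hz0 k
      · exact hf11 k
    simp only [e1, e2] at h1
    refine h1.congr fun t => ?_
    rw [Function.comp_apply, con_act]
    have e3 : (fun (k : Fin 4) (b : Fin 3) => ∑ a, (cond (J k) (f1 k) (f0 k)) a * (M t k).1 a b) =
        fun k b => (t : ℂ) ^ (cond (J k) (w1 k) (w0 k)) * (cond (J k) (f1 k) (f0 k)) b := by
      funext k b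
      cases J k
      · exact hf0 k t b
      · exact hf1 k t b
    rw [e3]
    unfold con
    rw [Finset.mul_sum]
    refine Finset.sum_congr rfl fun j _ => ?_
    rw [Finset.prod_mul_distrib, ← mul_assoc]
    congr 2
    rw [Fin.prod_univ_four, Fin.sum_univ_four, zpow_add₀ t.ne_zero, zpow_add₀ t.ne_zero,
      zpow_add₀ t.ne_zero]
  have hcon : ∀ J : Fin 4 → Bool, con (fun k => cond (J k) (f1 k) (f0 k)) T' =
      F (∑ a, (cond (J 0) (f1 0) (f0 0)) a * ((g 0)⁻¹).1 a 0)
        (∑ a, (cond (J 0) (f1 0) (f0 0)) a * ((g 0)⁻¹).1 a 1)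
        (∑ a, (cond (J 0) (f1 0) (f0 0)) a * ((g 0)⁻¹).1 a 2)
        (∑ a, (cond (J 1) (f1 1) (f0 1)) a * ((g 1)⁻¹).1 a 0)
        (∑ a, (cond (J 1) (f1 1) (f0 1)) a * ((g 1)⁻¹).1 a 1)
        (∑ a, (cond (J 2) (f1 2) (f0 2)) a * ((g 2)⁻¹).1 a 0)
        (∑ a, (cond (J 2) (f1 2) (f0 2)) a * ((g 2)⁻¹).1 a 1)
        (∑ a, (cond (J 3) (f1 3) (f0 3)) a * ((g 3)⁻¹).1 a 0)
        (∑ a, (cond (J 3) (f1 3) (f0 3)) a * ((g 3)⁻¹).1 a 1) := by
    intro J
    rw [hT', con_act, con_T]
  have hpos : ∀ J : Fin 4 → Bool, ((∏ k, cond (J k) (0 : ℂ) 1) + ∏ k, cond (J k) (1 : ℂ) 0 = 0) →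
      con (fun k => cond (J k) (f1 k) (f0 k)) T' ≠ 0 → 0 < ∑ k, cond (J k) (w1 k) (w0 k) := by
    intro J h0 hne
    rcases limit_cases _ _ _ (hJ J) with h1 | h1 | h1
    · exact h1.1
    · rw [h0] at h1
      exact absurd h1.2.symm hne
    · exact absurd h1.1 hne
  have hone' : ∀ J : Fin 4 → Bool, ((∏ k, cond (J k) (0 : ℂ) 1) + ∏ k, cond (J k) (1 : ℂ) 0 = 1) →
      ∑ k, cond (J k) (w1 k) (w0 k) = 0 ∧ con (fun k => cond (J k) (f1 k) (f0 k)) T' = 1 := by
    intro J h0
    rcases limit_cases _ _ _ (hJ J) with h1 | h1 | h1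
    · rw [h0] at h1
      exact absurd h1.2 one_ne_zero
    · rw [h0] at h1
      exact ⟨h1.1, h1.2.symm⟩
    · rw [h0] at h1
      exact absurd h1.2 one_ne_zero
  obtain ⟨ws0, u000⟩ := hone' ![false, false, false, false] (by simp [Fin.prod_univ_four])
  obtain ⟨ws1, v111⟩ := hone' ![true, true, true, true] (by simp [Fin.prod_univ_four])
  have P := fun j0 j1 j2 j3 => hpos ![j0, j1, j2, j3]
  simp only [hcon, Fin.sum_univ_four, Fin.prod_univ_four, Matrix.cons_val_zero, Matrix.cons_val_one,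
    Matrix.cons_val] at ws0 u000 ws1 v111 P
  simp only [cond_true, cond_false] at ws0 u000 ws1 v111
  refine Data.false (a1 := w1 1 - w0 1) (a2 := w1 2 - w0 2) (a3 := w1 3 - w0 3)
    ⟨u000, fun h' => ?_, fun h' => ?_, fun h' => ?_, fun h' => ?_, fun h' => ?_, fun h' => ?_,
      fun h' => ?_, v111, fun h' => ?_, fun h' => ?_, fun h' => ?_, fun h' => ?_, fun h' => ?_,
      fun h' => ?_, fun h' => ?_⟩
  · have := P false true false false (by simp) h'
    simp only [cond_true, cond_false] at this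
    omega
  · have := P false false true false (by simp) h'
    simp only [cond_true, cond_false] at this
    omega
  · have := P false false false true (by simp) h'
    simp only [cond_true, cond_false] at this
    omega
  · have := P false true true false (by simp) h'
    simp only [cond_true, cond_false] at this
    omega
  · have := P false true false true (by simp) h'
    simp only [cond_true, cond_false] at this
    omega
  · have := P false false true true (by simp) h'
    simp only [cond_true, cond_false] at this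
    omega
  · have := P false true true true (by simp) h'
    simp only [cond_true, cond_false] at this
    omega
  · have := P true false true true (by simp) h'
    simp only [cond_true, cond_false] at this
    omega
  · have := P true true false true (by simp) h'
    simp only [cond_true, cond_false] at this
    omega
  · have := P true true true false (by simp) h'
    simp only [cond_true, cond_false] at this
    omega
  · have := P true false false true (by simp) h'
    simp only [cond_true, cond_false] at this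
    omega
  · have := P true false true false (by simp) h'
    simp only [cond_true, cond_false] at this
    omega
  · have := P true true false false (by simp) h'
    simp only [cond_true, cond_false] at this
    omega
  · have := P true false false false (by simp) h'
    simp only [cond_true, cond_false] at this
    omega

/-! ### The unit tensor of size three -/

theorem no_hm3 (l : ℂˣ →* (Fin 4 → GL (Fin 3) ℂ)) (g : Fin 4 → GL (Fin 3) ℂ)
    (h : Tendsto (fun t : ℂˣ => act (fun k => (l t k).1) T) (comap (fun t : ℂˣ => (t : ℂ)) (𝓝 0))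
      (𝓝 (act (fun k => (g k).1) (unitTensor 4 3 3)))) : False := by
  have := neBot_zero
  have hlim := conj_limit l g h
  let mat : Tensor 4 3 → Matrix (Fin 3) (Fin 3) ℂ := fun X a b => X ![b, a, b, b]
  have hcont : Continuous fun X : Tensor 4 3 => (mat X).det := by
    refine Continuous.matrix_det ?_
    refine continuous_matrix fun a b => ?_
    exact continuous_apply _
  have h1 := (hcont.tendsto _).comp hlim
  have h2 : ∀ A : Fin 4 → Matrix (Fin 3) (Fin 3) ℂ, (mat (act A T)).det = 0 := by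
    intro A
    have e : ∀ a b, mat (act A T) a b = A 1 a 0 * (A 0 b 0 * A 2 b 0 * A 3 b 1 +
        A 0 b 0 * A 2 b 1 * A 3 b 0 + A 0 b 1 * A 2 b 1 * A 3 b 1 + A 0 b 2 * A 2 b 0 * A 3 b 1) +
        A 1 a 1 * (A 0 b 1 * A 2 b 0 * A 3 b 0 + A 0 b 2 * A 2 b 0 * A 3 b 1 +
          A 0 b 2 * A 2 b 1 * A 3 b 0) := by
      intro a b
      change act A T ![b, a, b, b] = _
      rw [act_eq_con, con_T]
      simp only [Matrix.cons_val_zero, Matrix.cons_val_one, Matrix.cons_val, F]
      ring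
    rw [Matrix.det_fin_three]
    simp only [e]
    ring
  have h3 : (fun t : ℂˣ => (mat (act (fun k => ((g k)⁻¹ * l t k * g k).1)
      (act (fun k => ((g k)⁻¹).1) T))).det) = fun _ => 0 := by
    funext t
    rw [act_act, h2]
  have h4 : (mat (unitTensor 4 3 3)).det = 0 := by
    refine tendsto_nhds_unique (h1.congr fun t => ?_) tendsto_const_nhds
    exact congrFun h3 t
  have h5 : mat (unitTensor 4 3 3) = 1 := by
    ext a b
    change unitTensor 4 3 3 ![b, a, b, b] = _
    unfold unitTensor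
    rw [Matrix.one_apply]
    by_cases hab : a = b
    · subst hab
      rw [if_pos rfl, if_pos]
      refine ⟨a, a.2, fun k => ?_⟩
      fin_cases k <;> rfl
    · rw [if_neg hab, if_neg]
      rintro ⟨c, _, hc⟩
      have c0 : b = c := hc 0
      have c1 : a = c := hc 1
      exact hab (c1.trans c0.symm)
  rw [h5, Matrix.det_one] at h4
  exact one_ne_zero h4

/-! ### The degeneration -/

/-- first weights -/
def wt1 : Fin 4 → Fin 3 → ℤ := ![![-2, 0, 2], ![2, -2, 0], ![1, -1, 0], ![1, -1, 0]]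

/-- second weights -/
def wt2 : Fin 4 → Fin 3 → ℤ := ![![0, 1, 0], ![0, -3, 0], ![0, 1, 0], ![0, 1, 0]]

/-- The first degeneration of the tensor. -/
noncomputable def T1 : Tensor 4 3 := fun i => ∑ m : Fin 7, if i = supp m then
  (if m = 6 then 0 else 1) else 0

/-- the matrices of the change of bases -/
noncomputable def mats (ε : ℂ) : Fin 4 → Matrix (Fin 3) (Fin 3) ℂ :=
  ![!![-1 / 2, 0, 1 / 2; 0, 1, 1; 0, 0, ε], !![1, 0, 0; 1, 1, 0; 0, 0, 1],
    !![-1, 1, 0; 1, 0, 0; 0, 0, 1], !![-1, 1, 0; 1, 0, 0; 0, 0, 1]]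

/-- the support of the second tensor -/
def supp3 : Fin 5 → Fin 4 → Fin 3 :=
  ![![0, 0, 0, 0], ![1, 1, 1, 1], ![0, 0, 1, 0], ![0, 0, 0, 1], ![1, 0, 0, 0]]

/-- the coefficients of the second tensor -/
noncomputable def coef3 : Fin 5 → ℂ := ![1, 1, -1 / 2, -1 / 2, 1]

theorem act_zpow (w : Fin 4 → Fin 3 → ℤ) (t : ℂˣ) {ι : Type*} [Fintype ι] (c : ι → ℂ)
    (s : ι → Fin 4 → Fin 3) (i : Fin 4 → Fin 3) :
    act (fun k => Matrix.diagonal fun a => (t : ℂ) ^ w k a)
      (fun i => ∑ m, if i = s m then c m else 0) i =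
    ∑ m, if i = s m then (t : ℂ) ^ (∑ k, w k (s m k)) * c m else 0 := by
  rw [act_diagonal, Finset.mul_sum]
  refine Finset.sum_congr rfl fun m _ => ?_
  by_cases h : i = s m
  · rw [if_pos h, if_pos h, h, Fin.prod_univ_four, Fin.sum_univ_four, zpow_add₀ t.ne_zero,
      zpow_add₀ t.ne_zero, zpow_add₀ t.ne_zero]
  · rw [if_neg h, if_neg h, mul_zero]

theorem deg_diag (w : Fin 4 → Fin 3 → ℤ) {ι : Type*} [Fintype ι] (c c' : ι → ℂ)
    (s : ι → Fin 4 → Fin 3)
    (h : ∀ m, (∑ k, w k (s m k) = 0 ∧ c' m = c m) ∨ (0 < ∑ k, w k (s m k) ∧ c' m = 0)) :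
    Deg (fun i => ∑ m, if i = s m then c m else 0 : Tensor 4 3)
      (fun i => ∑ m, if i = s m then c' m else 0) := by
  have := neBot_zero
  refine deg_of_tendsto (F := comap (fun t : ℂˣ => (t : ℂ)) (𝓝 0))
    (fun (t : ℂˣ) (k : Fin 4) => Matrix.diagonal fun a => (t : ℂ) ^ w k a) ?_ ?_
  · intro t k
    rw [Matrix.isUnit_iff_isUnit_det, Matrix.det_diagonal]
    exact (Finset.prod_ne_zero_iff.2 fun a _ => zpow_ne_zero _ t.ne_zero).isUnit
  · rw [tendsto_pi_nhds]
    intro i
    simp only [act_zpow]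
    refine tendsto_finsetSum _ fun m _ => ?_
    by_cases hi : i = s m
    · simp only [if_pos hi]
      rcases h m with ⟨h1, h2⟩ | ⟨h1, h2⟩
      · rw [h1, h2]
        simp only [zpow_zero, one_mul]
        exact tendsto_const_nhds
      · rw [h2]
        have := (tendsto_zpow_pos _ h1).mul_const (c m)
        rwa [zero_mul] at this
    · simp only [if_neg hi]
      exact tendsto_const_nhds

theorem deg1 : Deg T T1 := by
  refine deg_diag wt1 (fun _ : Fin 7 => 1) (fun m => if m = 6 then 0 else 1) supp fun m => ?_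
  fin_cases m <;> simp [wt1, supp, Fin.sum_univ_four]

theorem isUnit_mats (ε : ℂ) (hε : ε ≠ 0) (k : Fin 4) : IsUnit (mats ε k) := by
  rw [Matrix.isUnit_iff_isUnit_det, isUnit_iff_ne_zero]
  fin_cases k
  · simp [mats, Matrix.det_fin_three, hε]
  · simp [mats, Matrix.det_fin_three]
  · simp [mats, Matrix.det_fin_three]
  · simp [mats, Matrix.det_fin_three]

theorem deg2 : Deg T1 (act (mats 0) T1) := by
  have := neBot_zero
  refine deg_of_tendsto (F := comap (fun t : ℂˣ => (t : ℂ)) (𝓝 0))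
    (fun (t : ℂˣ) => mats (t : ℂ)) (fun t k => isUnit_mats _ t.ne_zero k) ?_
  have hc : Continuous fun ε : ℂ => act (mats ε) T1 := by
    unfold act
    refine continuous_pi fun i => ?_
    refine continuous_finsetSum _ fun j _ => ?_
    refine Continuous.mul ?_ continuous_const
    refine continuous_finsetProd _ fun k _ => ?_
    have : ∀ (k : Fin 4) (a b : Fin 3), Continuous fun ε : ℂ => mats ε k a b := by
      intro k a b
      fin_cases k <;> fin_cases a <;> fin_cases b <;> simp [mats] <;> fun_prop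
    exact this k _ _
  exact (hc.tendsto 0).comp tendsto_coe

theorem act_mats : act (mats 0) T1 = fun i => ∑ m, if i = supp3 m then coef3 m else 0 := by
  funext i
  have e : act (mats 0) T1 i = ∑ m : Fin 7, (if m = 6 then 0 else 1) *
      ∏ k, mats 0 k (i k) (supp m k) := by
    rw [act_eq_con]
    exact con_sum _ _ _
  rw [e]
  obtain ⟨i0, h0⟩ : ∃ x, x = i 0 := ⟨_, rfl⟩
  obtain ⟨i1, h1⟩ : ∃ x, x = i 1 := ⟨_, rfl⟩
  obtain ⟨i2, h2⟩ : ∃ x, x = i 2 := ⟨_, rfl⟩
  obtain ⟨i3, h3⟩ : ∃ x, x = i 3 := ⟨_, rfl⟩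
  have hi : i = ![i0, i1, i2, i3] := by
    funext k
    fin_cases k
    · exact h0.symm
    · exact h1.symm
    · exact h2.symm
    · exact h3.symm
  have hiff : ∀ x : Fin 4 → Fin 3, ![i0, i1, i2, i3] = x ↔
      (i0 = x 0 ∧ i1 = x 1 ∧ i2 = x 2 ∧ i3 = x 3) := by
    intro x
    constructor
    · rintro rfl
      exact ⟨rfl, rfl, rfl, rfl⟩
    · rintro ⟨rfl, rfl, rfl, rfl⟩
      funext k
      fin_cases k <;> rfl
  rw [hi]
  simp only [hiff, Fin.sum_univ_seven, Fin.sum_univ_five, Fin.prod_univ_four]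
  clear hi h0 h1 h2 h3 e hiff
  fin_cases i0 <;> fin_cases i1 <;> fin_cases i2 <;> fin_cases i3 <;>
    simp [mats, supp, supp3, coef3] <;> norm_num

theorem unit2_eq : unitTensor 4 3 2 =
    fun i => ∑ m, if i = supp3 m then (![1, 1, 0, 0, 0] : Fin 5 → ℂ) m else 0 := by
  funext i
  rw [unit2_apply, Fin.sum_univ_two, Fin.sum_univ_five]
  have e0 : supp3 0 = fun _ => ((0 : Fin 2).castSucc : Fin 3) := by
    funext k
    fin_cases k <;> rfl
  have e1 : supp3 1 = fun _ => ((1 : Fin 2).castSucc : Fin 3) := by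
    funext k
    fin_cases k <;> rfl
  rw [e0, e1]
  simp

theorem deg3 : Deg (act (mats 0) T1) (unitTensor 4 3 2) := by
  rw [act_mats, unit2_eq]
  refine deg_diag wt2 coef3 _ supp3 fun m => ?_
  fin_cases m <;> simp [wt2, supp3, coef3, Fin.sum_univ_four]

/-- There is a tensor of order four in `(ℂ³)^{⊗ 4}` with border subrank larger than its
Hilbert-Mumford subrank. -/
theorem result : ∃ (d n : ℕ) (T : Tensor d n), 2 ≤ d ∧ 1 ≤ n ∧ hmSubrank T < borderSubrank T := by
  refine ⟨4, 3, T, by norm_num, by norm_num, ?_⟩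
  have h1 : hmSubrank T ≤ 1 := by
    refine csSup_le' ?_
    rintro r ⟨hr, l, g, hl, hlim⟩
    by_contra hlt
    push Not at hlt
    have hr' : r = 2 ∨ r = 3 := by omega
    rcases hr' with rfl | rfl
    · exact no_hm2 l hl g hlim
    · exact no_hm3 l g hlim
  have h2 : 2 ≤ borderSubrank T := by
    refine le_csSup ⟨3, ?_⟩ ⟨by norm_num, (deg1.trans deg2).trans deg3⟩
    rintro r ⟨hr, _⟩
    exact hr
  omega

end Pool.Agent.Results.MP_5e02e7_ag.BorderExceedsHM
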